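import Mathlib

set_option autoImplicit false

namespace Pool.Agent.Results.MP_429122_al.Core

def core {S : Type} [CommRing S] (I : Ideal S) : Ideal S :=
  sInf {J | J ≤ I ∧ ∃ n : ℕ, J * I ^ n = I ^ (n + 1)}

theorem contr {A : Type} [CommRing A] (P : Ideal A) [hP : P.IsMaximal] (K : Ideal A) (N : ℕ)
    (h : P ^ N ≤ K) : (K.map (algebraMap A (Localization.AtPrime P))).comap
      (algebraMap A (Localization.AtPrime P)) = K := by
  refine le_antisymm (fun x hx => ?_) Ideal.le_comap_map
  obtain ⟨s, hs, h1⟩ := (IsLocalization.algebraMap_mem_map_algebraMap_iff P.primeCompl _ K x).1 hx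
  have h2 : Ideal.span {s} ⊔ P = ⊤ := by
    by_contra hne
    have := hP.eq_of_le hne le_sup_right
    exact hs (this ▸ Ideal.mem_sup_left (Ideal.mem_span_singleton_self s))
  have h3 := Ideal.sup_pow_eq_top (n := N) h2
  obtain ⟨a, ha, b, hb, e⟩ := Submodule.mem_sup.1 ((Ideal.eq_top_iff_one _).1 h3)
  obtain ⟨t, rfl⟩ := Ideal.mem_span_singleton'.1 ha
  have e2 : x = t * (s * x) + x * b := by linear_combination (-x) * e
  rw [e2]
  exact K.add_mem (K.mul_mem_left _ h1) (K.mul_mem_left _ (h hb))

theorem gen {A : Type} [CommRing A] (P : Ideal A) [hP : P.IsMaximal] :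
    core (IsLocalRing.maximalIdeal (Localization.AtPrime P)) =
      (core P).map (algebraMap A (Localization.AtPrime P)) := by
  have hm := Localization.AtPrime.map_eq_maximalIdeal (I := P)
  apply le_antisymm
  · rw [← IsLocalization.map_under P.primeCompl (Localization.AtPrime P) (core _)]
    refine Ideal.map_mono (le_sInf fun J ⟨h1, n, h2⟩ => ?_)
    rw [← contr P J (n + 1) (h2 ▸ Ideal.mul_le_left)]
    refine Ideal.comap_mono (sInf_le ⟨hm ▸ Ideal.map_mono h1, n, ?_⟩)
    rw [← hm, ← Ideal.map_pow, ← Ideal.map_pow, ← Ideal.map_mul, h2]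
  · refine le_sInf fun J ⟨h1, n, h2⟩ => ?_
    rw [Ideal.map_le_iff_le_comap]
    have h3 : P ^ (n + 1) ≤ J.comap (algebraMap A (Localization.AtPrime P)) := by
      rw [← Ideal.map_le_iff_le_comap, Ideal.map_pow, hm, ← h2]
      exact Ideal.mul_le_left
    refine sInf_le ⟨?_, n, ?_⟩
    · refine le_trans ?_ (contr P P 1 (pow_one P).le).le
      rw [hm]
      exact Ideal.comap_mono h1
    · rw [← contr P (P ^ (n + 1)) (n + 1) le_rfl, ← contr P (_ * P ^ n) (n + 1 + n)
        (by rw [pow_add]; exact Ideal.mul_mono_left h3), Ideal.map_mul, Ideal.map_pow,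
        Ideal.map_pow, hm, ← h2]
      congr 2
      exact IsLocalization.map_under P.primeCompl (Localization.AtPrime P) J

theorem result (A : Type) [CommRing A] (P : Ideal A) [P.IsMaximal] :
    core (IsLocalRing.maximalIdeal (Localization.AtPrime P)) =
      (core P).map (algebraMap A (Localization.AtPrime P)) := gen P

end Pool.Agent.Results.MP_429122_al.Core
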